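import Pool.Agent.Helper60_BS.PerHalf

/-!
# BS module PERBELOW (helper60)
-/

set_option autoImplicit false

namespace Pool.Agent.BS.H60

open Function Filter MeasureTheory Topology Pool.Agent.BS

/-- finite witnesses of a large cluster -/
def Wit {D V : Type} (T : TMap D V) (x : V) (N : ℕ) (U : Finset V) : Prop :=
  x ∈ U ∧ ∃ Y : Finset V, N ≤ Y.card ∧ ∀ y ∈ Y, T.Reach ((U : Set V)ᶜ) x y

theorem reach_mono {D V : Type} (T : TMap D V) {Z Z' : Set V} (h : Z ⊆ Z') {x y : V}
    (hr : T.Reach Z' x y) : T.Reach Z x y := by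
  induction hr with
  | refl => exact Relation.ReflTransGen.refl
  | tail _ hbc ih => exact Relation.ReflTransGen.tail ih ⟨fun hz => hbc.1 (h hz), hbc.2⟩

theorem path_fin {D V : Type} (T : TMap D V) (c : V → Bool) (x y : V) (hx : c x = true)
    (h : T.Reach {v | c v = false} x y) :
    ∃ U : Finset V, x ∈ U ∧ (∀ v ∈ U, c v = true) ∧ T.Reach ((U : Set V)ᶜ) x y := by
  classical
  induction h with
  | refl => exact ⟨{x}, by simp, by simpa using hx, Relation.ReflTransGen.refl⟩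
  | @tail b d hab hbc ih =>
    obtain ⟨U, h1, h2, h3⟩ := ih
    refine ⟨insert d U, by simp [h1], ?_, ?_⟩
    · intro v hv
      rcases Finset.mem_insert.1 hv with hv | hv
      · rw [hv]
        have := hbc.1
        simpa using this
      · exact h2 v hv
    · refine Relation.ReflTransGen.tail (reach_mono T ?_ h3) ⟨by simp, hbc.2⟩
      intro v hv hv2
      exact hv (by simpa using Or.inr hv2)

theorem wit_of_infinite {D V : Type} (T : TMap D V) (c : V → Bool) (x : V) (N : ℕ)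
    (h : (T.clu c x).Infinite) : ∃ U : Finset V, Wit T x N U ∧ ∀ v ∈ U, c v = true := by
  classical
  have hx : c x = true := h.nonempty.some_mem.1
  obtain ⟨Y, hY1, hY2⟩ := h.exists_subset_card_eq N
  have hex : ∀ y ∈ Y, ∃ U : Finset V, x ∈ U ∧ (∀ v ∈ U, c v = true) ∧ T.Reach ((U : Set V)ᶜ) x y :=
    fun y hy => path_fin T c x y hx (hY1 hy).2
  choose! U hU1 hU2 hU3 using hex
  refine ⟨insert x (Y.biUnion U), ⟨by simp, Y, hY2.ge, ?_⟩, ?_⟩
  · intro y hy
    refine reach_mono T ?_ (hU3 y hy)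
    intro v hv hv2
    apply hv
    simp only [Finset.coe_insert, Set.mem_insert_iff, Finset.mem_coe, Finset.mem_biUnion]
    exact Or.inr ⟨y, hy, hv2⟩
  · intro v hv
    rcases Finset.mem_insert.1 hv with hv | hv
    · rw [hv]; exact hx
    · obtain ⟨y, hy, hv⟩ := Finset.mem_biUnion.1 hv
      exact hU2 y hy v hv

theorem card_of_wit {D V : Type} (T : TMap D V) (c : V → Bool) (x : V) (N : ℕ) (U : Finset V)
    (h : Wit T x N U) (hc : ∀ v ∈ U, c v = true) (hfin : (T.clu c x).Finite) :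
    N ≤ (T.clu c x).ncard := by
  obtain ⟨hx, Y, hY1, hY2⟩ := h
  have hsub : (Y : Set V) ⊆ T.clu c x := by
    intro y hy
    refine ⟨hc x hx, reach_mono T ?_ (hY2 y hy)⟩
    intro v hv hv2
    have := hc v hv2
    simp only [Set.mem_ofPred_eq] at hv
    rw [hv] at this
    exact absurd this (by simp)
  calc N ≤ Y.card := hY1
    _ = (Y : Set V).ncard := (Set.ncard_coe_finset Y).symm
    _ ≤ _ := Set.ncard_le_ncard hsub hfin

/-- witnessed by one of the first `m` sets -/
def AA {D V : Type} (T : TMap D V) (x : V) (N : ℕ) (f : ℕ → Finset V) (m : ℕ) : Set (V → Bool) :=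
  {c | ∃ n ≤ m, Wit T x N (f n) ∧ ∀ v ∈ f n, c v = true}

theorem AA_mono {D V : Type} (T : TMap D V) (x : V) (N : ℕ) (f : ℕ → Finset V) :
    Monotone (AA T x N f) := by
  intro m m' h c hc
  obtain ⟨n, hn, h1, h2⟩ := hc
  exact ⟨n, hn.trans h, h1, h2⟩

theorem AA_local {D V : Type} [DecidableEq V] (T : TMap D V) (x : V) (N : ℕ) (f : ℕ → Finset V)
    (m : ℕ) (c c' : V → Bool) (h : ∀ v ∈ (Finset.range (m + 1)).biUnion f, c v = c' v) :
    c ∈ AA T x N f m ↔ c' ∈ AA T x N f m := by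
  have key : ∀ c c' : V → Bool, (∀ v ∈ (Finset.range (m + 1)).biUnion f, c v = c' v) →
      c ∈ AA T x N f m → c' ∈ AA T x N f m := by
    rintro c c' h ⟨n, hn, h1, h2⟩
    refine ⟨n, hn, h1, fun v hv => ?_⟩
    rw [← h v (Finset.mem_biUnion.2 ⟨n, Finset.mem_range.2 (by omega), hv⟩)]
    exact h2 v hv
  exact ⟨key c c' h, key c' c (fun v hv => (h v hv).symm)⟩

theorem perbelow (hD : PerDecayStmt) (hH : PerHalfStmt) (hF : PerFinStmt) (hRay : RayStmt)
    (hRL : RayLoopStmt) (hInf : InfStmt) : PerBelowStmt := by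
  classical
  intro D V T Δ K θ hpl hdeg hfl hne
  have hcount := countable_V T
  have hinf : Infinite V := hInf D V T K θ hfl hne
  have hhalf : (1 / 2 : NNReal) ≤ 1 := by
    rw [← NNReal.coe_le_coe]; push_cast; norm_num
  obtain ⟨x, hx⟩ := hH D V T Δ K θ hpl hdeg hfl hne (1 / 2) hhalf rfl
  set ν := Per V (1 / 2) hhalf with hν
  have hprob : ∀ (p : NNReal) (hp : p ≤ 1), IsProbabilityMeasure (Per V p hp) := by
    intro p hp; unfold Per; infer_instance
  have hprobν : IsProbabilityMeasure ν := hprob _ _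
  set t : ENNReal := ν {c | (T.clu c x).Infinite} with ht
  have htfin : t ≠ ⊤ := measure_ne_top _ _
  have ht2 : t / 2 < t := ENNReal.half_lt_self hx.ne' htfin
  obtain ⟨e, he1, he2, he3⟩ := hRay D V T hinf x
  obtain ⟨hRL1, -⟩ := hRL D V T Δ K θ e hpl hdeg hfl he2 he3
  obtain ⟨ε, hε, N, p₀, hp0, hdec⟩ := hD D V T Δ K θ hpl hdeg hfl
  -- choice of `ℓ0`
  have hr : 0 < t.toReal := ENNReal.toReal_pos hx.ne' htfin
  have htend := tendsto_sum_nat_add (bb K N ε)
  obtain ⟨l0, hl0⟩ := ((tendsto_order.1 htend).2 (t.toReal / 2) (by linarith)).exists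
  have htail : ∀ (p : NNReal) (hp : p ≤ 1), p₀ ≤ p → p ≤ 1 / 2 →
      Per V p hp (⋃ i, GG T K e (i + l0)) ≤ t / 2 := by
    intro p hp h1 h2
    have hs : Summable (fun i => bb K N ε (i + l0)) :=
      (summable_nat_add_iff l0).2 (bb_summable K N hε)
    calc Per V p hp (⋃ i, GG T K e (i + l0)) ≤ ∑' i, Per V p hp (GG T K e (i + l0)) :=
          measure_iUnion_le _
      _ ≤ ∑' i, ENNReal.ofReal (bb K N ε (i + l0)) :=
          ENNReal.tsum_le_tsum (fun i => measure_GG T K N ε hε e p hp (hdec p hp h1 h2) _)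
      _ = ENNReal.ofReal (∑' i, bb K N ε (i + l0)) :=
          (ENNReal.ofReal_tsum_of_nonneg (fun i => bb_nonneg K N ε _) hs).symm
      _ ≤ ENNReal.ofReal (t.toReal / 2) := ENNReal.ofReal_le_ofReal hl0.le
      _ = t / 2 := by
          rw [ENNReal.ofReal_div_of_pos (by norm_num), ENNReal.ofReal_toReal htfin]
          norm_num
  -- the finite approximation
  obtain ⟨f, hf⟩ := exists_surjective_nat (Finset V)
  have hsub : {c | (T.clu c x).Infinite} ⊆ ⋃ m, AA T x (K * l0 + 1) f m := by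
    intro c hc
    obtain ⟨U, hU1, hU2⟩ := wit_of_infinite T c x (K * l0 + 1) hc
    obtain ⟨n, rfl⟩ := hf U
    exact Set.mem_iUnion.2 ⟨n, n, le_rfl, hU1, hU2⟩
  have hlt : t / 2 < ν (⋃ m, AA T x (K * l0 + 1) f m) := lt_of_lt_of_le ht2 (measure_mono hsub)
  have hmt := tendsto_measure_iUnion_atTop (μ := ν) (AA_mono T x (K * l0 + 1) f)
  obtain ⟨m, hm⟩ := ((tendsto_order.1 hmt).1 _ hlt).exists
  simp only [Function.comp] at hm
  set Λ : Finset V := (Finset.range (m + 1)).biUnion f with hΛ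
  set S : Set (V → Bool) := AA T x (K * l0 + 1) f m with hS
  have hloc : ∀ c c' : V → Bool, (∀ v ∈ Λ, c v = c' v) → (c ∈ S ↔ c' ∈ S) :=
    fun c c' h => AA_local T x _ f m c c' h
  let g : ℝ → ℝ := fun q => ∑ ω ∈ Λ.powerset.filter (fun ω => colF ω ∈ S),
      q ^ ω.card * (1 - q) ^ (Λ.card - ω.card)
  have hg : Continuous g := by
    refine continuous_finsetSum _ (fun ω _ => ?_)
    fun_prop
  have hgp : ∀ (p : NNReal) (hp : p ≤ 1), (Per V p hp).real S = g p := by
    intro p hp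
    have := (hF V p hp Λ S hloc).2
    rw [this]
  have hg12 : t.toReal / 2 < g (1 / 2) := by
    have h1 := hgp (1 / 2) hhalf
    have h2 : (t / 2).toReal < (ν S).toReal :=
      (ENNReal.toReal_lt_toReal (ne_top_of_lt ht2) (measure_ne_top _ _)).2 hm
    rw [ENNReal.toReal_div] at h2
    have h3 : ((1 / 2 : NNReal) : ℝ) = 1 / 2 := by push_cast; rfl
    rw [h3, measureReal_def] at h1
    rw [← h1]
    simpa only [ENNReal.toReal_ofNat] using h2
  have hev1 : ∀ᶠ q in 𝓝[<] (1 / 2 : ℝ), t.toReal / 2 < g q :=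
    (hg.continuousAt.tendsto.mono_left nhdsWithin_le_nhds).eventually (lt_mem_nhds hg12)
  have hp0' : (p₀ : ℝ) < 1 / 2 := by
    have := NNReal.coe_lt_coe.2 hp0
    simpa using this
  have hev2 : ∀ᶠ q in 𝓝[<] (1 / 2 : ℝ), q ∈ Set.Ioo (p₀ : ℝ) (1 / 2) := Ioo_mem_nhdsLT hp0'
  obtain ⟨q, hq1, hq2, hq3⟩ := (hev1.and hev2).exists
  have hq0 : 0 ≤ q := le_trans p₀.2 hq2.le
  let p : NNReal := ⟨q, hq0⟩
  have hpq : (p : ℝ) = q := rfl
  have hp : p ≤ 1 := by
    rw [← NNReal.coe_le_coe, hpq]; push_cast; linarith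
  have hplt : p < 1 / 2 := by
    rw [← NNReal.coe_lt_coe, hpq]; push_cast; linarith
  have hp0p : p₀ ≤ p := by
    rw [← NNReal.coe_le_coe, hpq]; exact hq2.le
  refine ⟨p, hp, hplt, x, ?_⟩
  have := hprob p hp
  have hS1 : t / 2 < Per V p hp S := by
    rw [← ENNReal.toReal_lt_toReal (ne_top_of_lt ht2) (measure_ne_top _ _), ENNReal.toReal_div]
    have h1 := hgp p hp
    rw [measureReal_def, hpq] at h1
    rw [h1]
    simpa using hq1
  have hcov : S ⊆ {c | (T.clu c x).Infinite} ∪ ⋃ i, GG T K e (i + l0) := by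
    rintro c ⟨n, hn, h1, h2⟩
    by_cases hfin : (T.clu c x).Finite
    · right
      have hcx : c (T.lf (e 0)) = true := by rw [he1]; exact h2 x h1.1
      obtain ⟨k, ℓ, H, hk1, hk2, hk3⟩ := hRL1 c (K * l0 + 1) hcx (by rw [he1]; exact hfin)
        (by rw [he1]; exact card_of_wit T c x _ (f n) h1 h2 hfin)
      have hlt : l0 ≤ ℓ := by
        by_contra hlt
        push Not at hlt
        have : K * ℓ ≤ K * l0 := Nat.mul_le_mul_left K hlt.le
        omega
      refine Set.mem_iUnion.2 ⟨ℓ - l0, ?_⟩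
      rw [Nat.sub_add_cancel hlt]
      exact ⟨k, hk1, H, hk3⟩
    · left
      exact hfin
  have hle : Per V p hp S ≤ Per V p hp {c | (T.clu c x).Infinite} + t / 2 :=
    calc Per V p hp S ≤ Per V p hp ({c | (T.clu c x).Infinite} ∪ ⋃ i, GG T K e (i + l0)) :=
          measure_mono hcov
      _ ≤ _ := measure_union_le _ _
      _ ≤ _ := add_le_add le_rfl (htail p hp hp0p hplt.le)
  by_contra hcon
  have h0 : Per V p hp {c | (T.clu c x).Infinite} = 0 := by
    rw [not_lt] at hcon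
    exact le_antisymm hcon zero_le
  rw [h0, zero_add] at hle
  exact absurd hS1 (not_lt.2 hle)

end Pool.Agent.BS.H60
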