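import Pool.Agent.Helper60_BS.PerFin
import Pool.Agent.Helper47_BS.Basic

/-!
# BS module PERDECAY (helper60)
-/

set_option autoImplicit false

namespace Pool.Agent.BS.H60

open Function Filter MeasureTheory Topology Pool.Agent.BS

section Ball

variable {D V : Type} (T : TMap D V)

theorem ball_finite (s : D) (n : ℕ) : (T.ball s n).Finite := by
  induction n with
  | zero => exact Set.finite_singleton s
  | succ n ih =>
    have h : T.ball s (n + 1) ⊆ T.ball s n ∪ T.lam '' T.ball s n ∪ T.lam.symm '' T.ball s n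
        ∪ T.al '' T.ball s n := by
      rintro e ⟨f, hf, h | h | h | h⟩
      · exact Or.inl (Or.inl (Or.inl (h ▸ hf)))
      · exact Or.inl (Or.inl (Or.inr ⟨f, hf, h.symm⟩))
      · exact Or.inl (Or.inr ⟨f, hf, h.symm⟩)
      · exact Or.inr ⟨f, hf, h.symm⟩
    exact ((((ih.union (ih.image _)).union (ih.image _)).union (ih.image _))).subset h

theorem ball_mono {s : D} {n m : ℕ} (h : n ≤ m) : T.ball s n ⊆ T.ball s m := by
  induction m, h using Nat.le_induction with
  | base => exact subset_rfl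
  | succ m _ ih => exact fun e he => ⟨e, ih he, Or.inl rfl⟩

theorem self_mem_ball (s : D) (n : ℕ) : s ∈ T.ball s n := ball_mono T (Nat.zero_le n) rfl

theorem lam_mem {s d : D} {n : ℕ} (h : d ∈ T.ball s n) : T.lam d ∈ T.ball s (n + 1) :=
  ⟨d, h, Or.inr (Or.inl rfl)⟩

theorem lams_mem {s d : D} {n : ℕ} (h : d ∈ T.ball s n) : T.lam.symm d ∈ T.ball s (n + 1) :=
  ⟨d, h, Or.inr (Or.inr (Or.inl rfl))⟩

theorem al_mem {s d : D} {n : ℕ} (h : d ∈ T.ball s n) : T.al d ∈ T.ball s (n + 1) :=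
  ⟨d, h, Or.inr (Or.inr (Or.inr rfl))⟩

theorem nx_mem {s d : D} {n : ℕ} (c : V → Bool) (h : d ∈ T.ball s n) :
    T.nx c d ∈ T.ball s (n + 3) := by
  unfold TMap.nx
  split_ifs
  · rw [TMap.rho_apply]
    exact al_mem T (lams_mem T (al_mem T h))
  · exact ball_mono T (by omega) (lam_mem T h)

theorem iter_mem (c : V → Bool) (s : D) (k : ℕ) : (T.nx c)^[k] s ∈ T.ball s (3 * k) := by
  induction k with
  | zero => exact self_mem_ball T s 0
  | succ k ih =>
    rw [Function.iterate_succ_apply']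
    exact nx_mem T c ih

/-- a loop only depends on the colors of its vertices -/
theorem iter_congr {c c' : V → Bool} {s : D} {ℓ : ℕ}
    (h : ∀ k < ℓ, c (T.tau ((T.nx c)^[k] s)) = c' (T.tau ((T.nx c)^[k] s))) :
    ∀ k ≤ ℓ, (T.nx c')^[k] s = (T.nx c)^[k] s := by
  intro k
  induction k with
  | zero => intro _; rfl
  | succ k ih =>
    intro hk
    rw [Function.iterate_succ_apply', Function.iterate_succ_apply', ih (by omega)]
    unfold TMap.nx
    have h1 := h k (by omega)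
    unfold TMap.nx at h1
    rw [h1]

theorem isLoop_congr {c c' : V → Bool} {s : D} {ℓ : ℕ} {H : Finset V}
    (h : ∀ k ≤ ℓ, (T.nx c')^[k] s = (T.nx c)^[k] s) (hs : T.State c' s)
    (hl : T.IsLoop c s ℓ H) : T.IsLoop c' s ℓ H := by
  obtain ⟨h0, h1, h2, h3, h4⟩ := hl
  refine ⟨h0, hs, by rw [h ℓ le_rfl]; exact h2, ?_, ?_⟩
  · intro i j hij hj
    rw [h i (by omega), h j (by omega)]
    exact h3 i j hij hj
  · intro d
    rw [h4 d]
    constructor
    · rintro ⟨k, hk, e⟩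
      exact ⟨k, hk, by rw [h k (by omega)]; exact e⟩
    · rintro ⟨k, hk, e⟩
      exact ⟨k, hk, by rw [← h k (by omega)]; exact e⟩

open Classical in
/-- left and right vertices of the first `ℓ` darts of the interface -/
noncomputable def Lv (c : V → Bool) (s : D) (ℓ : ℕ) : Finset V :=
  (Finset.range ℓ).image (fun k => T.lf ((T.nx c)^[k] s))

open Classical in
/-- left and right vertices of the first `ℓ` darts of the interface -/
noncomputable def Rv (c : V → Bool) (s : D) (ℓ : ℕ) : Finset V :=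
  (Finset.range ℓ).image (fun k => T.rt ((T.nx c)^[k] s))

theorem det_LR {c c' : V → Bool} {s : D} {ℓ : ℕ} {H : Finset V} (hl : T.IsLoop c s ℓ H)
    (hL : ∀ v ∈ Lv T c s ℓ, c' v = true) (hR : ∀ v ∈ Rv T c s ℓ, c' v = false) :
    (∀ k ≤ ℓ, (T.nx c')^[k] s = (T.nx c)^[k] s) ∧ T.IsLoop c' s ℓ H := by
  classical
  obtain ⟨h0, h1, h2, h3, h4⟩ := id hl
  have memL : ∀ k ≤ ℓ, T.lf ((T.nx c)^[k] s) ∈ Lv T c s ℓ := by
    intro k hk
    rcases hk.lt_or_eq with h | h
    · exact Finset.mem_image.2 ⟨k, Finset.mem_range.2 h, rfl⟩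
    · exact Finset.mem_image.2 ⟨0, Finset.mem_range.2 h0, by rw [h, h2]; rfl⟩
  have memR : ∀ k ≤ ℓ, T.rt ((T.nx c)^[k] s) ∈ Rv T c s ℓ := by
    intro k hk
    rcases hk.lt_or_eq with h | h
    · exact Finset.mem_image.2 ⟨k, Finset.mem_range.2 h, rfl⟩
    · exact Finset.mem_image.2 ⟨0, Finset.mem_range.2 h0, by rw [h, h2]; rfl⟩
  have key : ∀ k < ℓ, c (T.tau ((T.nx c)^[k] s)) = c' (T.tau ((T.nx c)^[k] s)) := by
    intro k hk
    by_cases hc : c (T.tau ((T.nx c)^[k] s)) = true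
    · have e : (T.nx c)^[k + 1] s = T.rho ((T.nx c)^[k] s) := by
        rw [Function.iterate_succ_apply']
        unfold TMap.nx
        unfold TMap.nx at hc
        rw [if_pos hc]
      have := memL (k + 1) (by omega)
      rw [e, T.lf_rho] at this
      rw [hc, hL _ this]
    · have hc' : c (T.tau ((T.nx c)^[k] s)) = false := by simpa using hc
      have e : (T.nx c)^[k + 1] s = T.lam ((T.nx c)^[k] s) := by
        rw [Function.iterate_succ_apply']
        unfold TMap.nx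
        unfold TMap.nx at hc
        rw [if_neg hc]
      have := memR (k + 1) (by omega)
      rw [e, T.rt_lam] at this
      rw [hc', hR _ this]
  have h5 := iter_congr T key
  refine ⟨h5, isLoop_congr T h5 ⟨hL _ (memL 0 (by omega)), hR _ (memR 0 (by omega))⟩ hl⟩

theorem Lv_eq {c c' : V → Bool} {s : D} {ℓ : ℕ}
    (h : ∀ k ≤ ℓ, (T.nx c')^[k] s = (T.nx c)^[k] s) : Lv T c' s ℓ = Lv T c s ℓ := by
  classical
  unfold Lv
  refine Finset.image_congr ?_
  intro k hk
  have hk' := Finset.mem_range.1 (Finset.mem_coe.1 hk)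
  simp only
  rw [h k hk'.le]

theorem Rv_eq {c c' : V → Bool} {s : D} {ℓ : ℕ}
    (h : ∀ k ≤ ℓ, (T.nx c')^[k] s = (T.nx c)^[k] s) : Rv T c' s ℓ = Rv T c s ℓ := by
  classical
  unfold Rv
  refine Finset.image_congr ?_
  intro k hk
  have hk' := Finset.mem_range.1 (Finset.mem_coe.1 hk)
  simp only
  rw [h k hk'.le]

/-- the loop event only depends on the colors near `s` -/
theorem loop_local {s : D} {ℓ : ℕ} {Λ : Finset V} (hΛ : ∀ d ∈ T.ball s (8 * ℓ), T.lf d ∈ Λ)
    {c c' : V → Bool} (h : ∀ v ∈ Λ, c v = c' v) :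
    (∃ H, T.IsLoop c s ℓ H) → (∃ H, T.IsLoop c' s ℓ H) := by
  rintro ⟨H, hl⟩
  have h0 := hl.1
  have h1 := hl.2.1
  have h5 : ∀ k ≤ ℓ, (T.nx c')^[k] s = (T.nx c)^[k] s := by
    refine iter_congr T ?_
    intro k hk
    apply h
    have h6 : T.al (T.lam ((T.nx c)^[k] s)) ∈ T.ball s (8 * ℓ) :=
      ball_mono T (by omega) (al_mem T (lam_mem T (iter_mem T c s k)))
    exact hΛ _ h6
  refine ⟨H, isLoop_congr T h5 ⟨?_, ?_⟩ hl⟩
  · rw [← h _ (hΛ s (self_mem_ball T s _))]
    exact h1.1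
  · have h6 : T.al s ∈ T.ball s (8 * ℓ) :=
      ball_mono T (by omega) (al_mem T (self_mem_ball T s 0))
    have h7 := h _ (hΛ _ h6)
    change c (T.rt s) = c' (T.rt s) at h7
    rw [← h7]
    exact h1.2

end Ball

section Sum

variable {V : Type}

open Classical in
theorem sum_box (Λ L R : Finset V) (hL : L ⊆ Λ) (hR : R ⊆ Λ) (hLR : Disjoint L R) (p q : ℝ) :
    ∑ ω ∈ Λ.powerset.filter (fun ω => L ⊆ ω ∧ Disjoint R ω), p ^ ω.card * q ^ (Λ.card - ω.card)
      = p ^ L.card * q ^ R.card * (p + q) ^ (Λ.card - L.card - R.card) := by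
  set M := Λ \ (L ∪ R) with hM
  have hLR' : (L ∪ R).card = L.card + R.card := Finset.card_union_of_disjoint hLR
  have hsub : L ∪ R ⊆ Λ := Finset.union_subset hL hR
  have hMc : M.card = Λ.card - L.card - R.card := by
    rw [hM, Finset.card_sdiff_of_subset hsub, hLR', Nat.sub_sub]
  have hle : L.card + R.card ≤ Λ.card := by
    rw [← hLR']
    exact Finset.card_le_card hsub
  have hML : Disjoint L M := by
    rw [hM]
    exact (Finset.disjoint_sdiff).mono_left Finset.subset_union_left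
  have hMR : Disjoint R M := by
    rw [hM]
    exact (Finset.disjoint_sdiff).mono_left Finset.subset_union_right
  have hbij : Λ.powerset.filter (fun ω => L ⊆ ω ∧ Disjoint R ω)
      = M.powerset.image (fun η => L ∪ η) := by
    ext ω
    simp only [Finset.mem_filter, Finset.mem_powerset, Finset.mem_image]
    constructor
    · rintro ⟨h1, h2, h3⟩
      refine ⟨ω \ L, ?_, Finset.union_sdiff_of_subset h2⟩
      intro v hv
      rw [Finset.mem_sdiff] at hv
      rw [hM, Finset.mem_sdiff, Finset.mem_union]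
      exact ⟨h1 hv.1, fun h => h.elim hv.2 (fun h => Finset.disjoint_left.1 h3 h hv.1)⟩
    · rintro ⟨η, h1, rfl⟩
      refine ⟨Finset.union_subset hL (h1.trans (Finset.sdiff_subset)), Finset.subset_union_left, ?_⟩
      rw [Finset.disjoint_union_right]
      exact ⟨hLR.symm, hMR.mono_right h1⟩
  rw [hbij, Finset.sum_image]
  · have h1 : ∀ η ∈ M.powerset, p ^ (L ∪ η).card * q ^ (Λ.card - (L ∪ η).card)
        = p ^ L.card * q ^ R.card * (p ^ η.card * q ^ (M.card - η.card)) := by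
      intro η hη
      rw [Finset.mem_powerset] at hη
      have h2 : (L ∪ η).card = L.card + η.card :=
        Finset.card_union_of_disjoint (hML.mono_right hη)
      have h3 := Finset.card_le_card hη
      have h4 : Λ.card - (L.card + η.card) = R.card + (M.card - η.card) := by omega
      rw [h2, h4, pow_add, pow_add]
      ring
    rw [Finset.sum_congr rfl h1, ← Finset.mul_sum, Finset.sum_pow_mul_eq_add_pow, hMc]
  · intro η hη η' hη' h
    have a1 : Disjoint L η := hML.mono_right (Finset.mem_powerset.1 hη)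
    have a2 : Disjoint L η' := hML.mono_right (Finset.mem_powerset.1 hη')
    have h' : L ∪ η = L ∪ η' := h
    rw [← Finset.union_sdiff_cancel_left a1, h', Finset.union_sdiff_cancel_left a2]

end Sum

open Classical in
/-- comparison of weights -/
theorem weight_le {D V : Type} (T : TMap D V) (s : D) (ℓ : ℕ) (Λ : Finset V)
    (hΛ : ∀ d ∈ T.ball s (8 * ℓ), T.lf d ∈ Λ) (p : ℝ) (hp0 : 0 ≤ p) (hp : p ≤ 1 / 2) :
    ∑ ω ∈ Λ.powerset.filter (fun ω => ∃ H, T.IsLoop (colF ω) s ℓ H),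
      p ^ ω.card * (1 - p) ^ (Λ.card - ω.card)
    ≤ (2 * (1 - p)) ^ ℓ / 2 ^ Λ.card
      * (((Λ.powerset.filter (fun ω => ∃ H, T.IsLoop (colF ω) s ℓ H)).card : ℕ) : ℝ) := by
  set A := Λ.powerset.filter (fun ω => ∃ H, T.IsLoop (colF ω) s ℓ H) with hA
  set g : Finset V → Finset V × Finset V := fun ω => (Lv T (colF ω) s ℓ, Rv T (colF ω) s ℓ) with hg
  have hcolT : ∀ (ω : Finset V) (v : V), colF ω v = true ↔ v ∈ ω := by
    intro ω v
    unfold colF
    rw [decide_eq_true_iff]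
  have hcolF : ∀ (ω : Finset V) (v : V), colF ω v = false ↔ v ∉ ω := by
    intro ω v
    unfold colF
    rw [decide_eq_false_iff_not]
  -- description of the fibers
  have hfib : ∀ x ∈ A.image g, A.filter (fun ω => g ω = x)
      = Λ.powerset.filter (fun ω => x.1 ⊆ ω ∧ Disjoint x.2 ω) ∧ x.1 ⊆ Λ ∧ x.2 ⊆ Λ ∧
        Disjoint x.1 x.2 ∧ x.2.card ≤ ℓ := by
    intro x hx
    obtain ⟨ω₀, hω₀, rfl⟩ := Finset.mem_image.1 hx
    rw [hA, Finset.mem_filter, Finset.mem_powerset] at hω₀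
    obtain ⟨hs0, H, hl⟩ := hω₀
    have hst := hl.2.1
    have sub : ∀ ω : Finset V, (∃ H, T.IsLoop (colF ω) s ℓ H) →
        Lv T (colF ω) s ℓ ⊆ ω ∧ Disjoint (Rv T (colF ω) s ℓ) ω := by
      rintro ω ⟨H', hl'⟩
      refine ⟨?_, ?_⟩
      · intro v hv
        obtain ⟨k, _, rfl⟩ := Finset.mem_image.1 hv
        exact (hcolT _ _).1 (hl'.2.1.iterate_nx k).1
      · rw [Finset.disjoint_left]
        intro v hv
        obtain ⟨k, _, rfl⟩ := Finset.mem_image.1 hv
        exact (hcolF _ _).1 (hl'.2.1.iterate_nx k).2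
    obtain ⟨s1, s2⟩ := sub ω₀ ⟨H, hl⟩
    refine ⟨?_, s1.trans hs0, ?_, ?_, ?_⟩
    · ext ω
      simp only [hA, Finset.mem_filter, Finset.mem_powerset]
      constructor
      · rintro ⟨⟨h1, h2⟩, h3⟩
        obtain ⟨t1, t2⟩ := sub ω h2
        have e1 : Lv T (colF ω) s ℓ = (g ω₀).1 := congrArg Prod.fst h3
        have e2 : Rv T (colF ω) s ℓ = (g ω₀).2 := congrArg Prod.snd h3
        rw [e1] at t1
        rw [e2] at t2
        exact ⟨h1, t1, t2⟩
      · rintro ⟨h1, h2, h3⟩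
        have hdet := det_LR T (c' := colF ω) hl (fun v hv => (hcolT _ _).2 (h2 hv))
          (fun v hv => (hcolF _ _).2 (Finset.disjoint_left.1 h3 hv))
        refine ⟨⟨h1, H, hdet.2⟩, ?_⟩
        exact Prod.ext (Lv_eq T hdet.1) (Rv_eq T hdet.1)
    · intro v hv
      obtain ⟨k, hk, rfl⟩ := Finset.mem_image.1 hv
      have hk' := Finset.mem_range.1 hk
      exact hΛ _ (ball_mono T (by omega) (al_mem T (iter_mem T (colF ω₀) s k)))
    · rw [Finset.disjoint_left]
      intro v h1 h2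
      exact Finset.disjoint_left.1 s2 h2 (s1 h1)
    · refine (Finset.card_image_le).trans ?_
      rw [Finset.card_range]
  have hmaps : ∀ ω ∈ A, g ω ∈ A.image g := fun ω h => Finset.mem_image_of_mem g h
  rw [← Finset.sum_fiberwise_of_maps_to hmaps, Finset.card_eq_sum_card_fiberwise (f := g)
    (t := A.image g) (fun ω h => hmaps ω h)]
  push_cast
  rw [Finset.mul_sum]
  refine Finset.sum_le_sum ?_
  intro x hx
  obtain ⟨e1, e2, e3, e4, e5⟩ := hfib x hx
  rw [e1, sum_box Λ x.1 x.2 e2 e3 e4]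
  have hcard : (((Λ.powerset.filter (fun ω => x.1 ⊆ ω ∧ Disjoint x.2 ω)).card : ℕ) : ℝ)
      = 2 ^ (Λ.card - x.1.card - x.2.card) := by
    have h := sum_box Λ x.1 x.2 e2 e3 e4 1 1
    simp only [one_pow, mul_one, Finset.sum_const, nsmul_eq_mul, one_mul] at h
    rw [h]
    norm_num
  rw [hcard]
  have hle : x.1.card + x.2.card ≤ Λ.card := by
    rw [← Finset.card_union_of_disjoint e4]
    exact Finset.card_le_card (Finset.union_subset e2 e3)
  have e6 : p + (1 - p) = 1 := by ring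
  rw [e6, one_pow, mul_one]
  have h1 : p ^ x.1.card ≤ (1 / 2) ^ x.1.card := pow_le_pow_left₀ hp0 hp _
  have h2 : (1 - p) ^ x.2.card = (2 * (1 - p)) ^ x.2.card * (1 / 2) ^ x.2.card := by
    rw [← mul_pow]
    congr 1
    ring
  have h3 : (2 * (1 - p)) ^ x.2.card ≤ (2 * (1 - p)) ^ ℓ :=
    pow_le_pow_right₀ (by linarith) e5
  have h4 : (2 : ℝ) ^ (Λ.card - x.1.card - x.2.card)
      = 2 ^ Λ.card * (1 / 2) ^ x.1.card * (1 / 2) ^ x.2.card := by
    have h5 : Λ.card = (Λ.card - x.1.card - x.2.card) + x.1.card + x.2.card := by omega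
    have h6 : (2 : ℝ) ^ Λ.card
        = 2 ^ (Λ.card - x.1.card - x.2.card) * 2 ^ x.1.card * 2 ^ x.2.card := by
      rw [← pow_add, ← pow_add, ← h5]
    rw [h6]
    have h7 : ∀ n : ℕ, (2 : ℝ) ^ n * (1 / 2) ^ n = 1 := by
      intro n
      rw [← mul_pow]
      norm_num
    calc (2 : ℝ) ^ (Λ.card - x.1.card - x.2.card)
        = 2 ^ (Λ.card - x.1.card - x.2.card) * (2 ^ x.1.card * (1 / 2) ^ x.1.card)
          * (2 ^ x.2.card * (1 / 2) ^ x.2.card) := by rw [h7, h7, mul_one, mul_one]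
      _ = _ := by ring
  rw [h4]
  have hpos : (0 : ℝ) < 2 ^ Λ.card := by positivity
  have e8 : (2 * (1 - p)) ^ ℓ / 2 ^ Λ.card
      * (2 ^ Λ.card * (1 / 2) ^ x.1.card * (1 / 2) ^ x.2.card)
      = (1 / 2) ^ x.1.card * ((2 * (1 - p)) ^ ℓ * (1 / 2) ^ x.2.card) := by
    field_simp
  rw [e8, h2]
  have hq : 0 ≤ 2 * (1 - p) := by linarith
  refine mul_le_mul h1 (mul_le_mul_of_nonneg_right h3 (by positivity)) ?_ (by positivity)
  exact mul_nonneg (pow_nonneg hq _) (by positivity)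

theorem perdecay (hED : EDStmt) : PerDecayStmt := by
  classical
  intro D V T Δ K θ hpl hdeg hfl
  obtain ⟨ε, hε, N, hN⟩ := hED D V T Δ K θ hpl hdeg hfl
  have hexp : 1 < Real.exp (ε / 2) := Real.one_lt_exp_iff.2 (by linarith)
  refine ⟨ε / 2, by linarith, max N 1, Real.toNNReal (1 - Real.exp (ε / 2) / 2), ?_, ?_⟩
  · rw [← NNReal.coe_lt_coe, Real.coe_toNNReal']
    have : max (1 - Real.exp (ε / 2) / 2) 0 < 1 / 2 := max_lt (by linarith) (by norm_num)
    simpa using this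
  intro p hp hp1 hp2 s ℓ hℓ
  have hℓN : N ≤ ℓ := (le_max_left _ _).trans hℓ
  set Λ : Finset V := ((ball_finite T s (8 * ℓ)).toFinset).image T.lf with hΛdef
  have hΛ : ∀ d ∈ T.ball s (8 * ℓ), T.lf d ∈ Λ := by
    intro d hd
    exact Finset.mem_image_of_mem _ ((Set.Finite.mem_toFinset _).2 hd)
  obtain ⟨hm, hP⟩ := perfin V p hp Λ {c : V → Bool | ∃ H, T.IsLoop c s ℓ H}
    (fun c c' h => ⟨loop_local T hΛ h, loop_local T hΛ (fun v hv => (h v hv).symm)⟩)
  refine ⟨hm, ?_⟩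
  have hp' : (p : ℝ) ≤ 1 / 2 := by
    have := NNReal.coe_le_coe.2 hp2
    simpa using this
  have hp1' : 1 - Real.exp (ε / 2) / 2 ≤ (p : ℝ) := by
    have := NNReal.coe_le_coe.2 hp1
    rw [Real.coe_toNNReal'] at this
    exact (le_max_left _ _).trans this
  have hw := weight_le T s ℓ Λ hΛ p p.2 hp'
  have hcount := hN s ℓ hℓN Λ hΛ
  have hP' : (Per V p hp).real {c : V → Bool | ∃ H, T.IsLoop c s ℓ H}
      = ∑ ω ∈ Λ.powerset.filter (fun ω => ∃ H, T.IsLoop (colF ω) s ℓ H),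
        (p : ℝ) ^ ω.card * (1 - (p : ℝ)) ^ (Λ.card - ω.card) := hP
  rw [hP']
  have hq0 : 0 ≤ 2 * (1 - (p : ℝ)) := by linarith
  have hq : 2 * (1 - (p : ℝ)) ≤ Real.exp (ε / 2) := by linarith
  have hpos : (0 : ℝ) < 2 ^ Λ.card := by positivity
  calc _ ≤ _ := hw
    _ ≤ (2 * (1 - (p : ℝ))) ^ ℓ / 2 ^ Λ.card * (Real.exp (-(ε * ℓ)) * 2 ^ Λ.card) :=
        mul_le_mul_of_nonneg_left hcount (by positivity)
    _ = (2 * (1 - (p : ℝ))) ^ ℓ * Real.exp (-(ε * ℓ)) := by field_simp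
    _ ≤ (Real.exp (ε / 2)) ^ ℓ * Real.exp (-(ε * ℓ)) :=
        mul_le_mul_of_nonneg_right (pow_le_pow_left₀ hq0 hq _) (Real.exp_pos _).le
    _ = Real.exp (-(ε / 2 * ℓ)) := by
        rw [← Real.exp_nat_mul, ← Real.exp_add]
        congr 1
        ring

end Pool.Agent.BS.H60
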