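import Pool.Agent.Helper47_BS.StmtsP

/-!
# BS modules PERFIN, PERSYM (helper60)
-/

set_option autoImplicit false

namespace Pool.Agent.BS.H60

open Function Filter MeasureTheory Topology Pool.Agent.BS

theorem bern_singleton (p : NNReal) (hp : p ≤ 1) (b : Bool) :
    (PMF.bernoulli p hp).toMeasure {b} = ((if b then p else 1 - p : NNReal) : ENNReal) := by
  rw [PMF.toMeasure_apply_singleton _ _ (measurableSet_singleton b), PMF.bernoulli_apply]
  cases b <;> simp

/-- the cylinder of all colorings whose open set in `Λ` is `ω` -/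
def cyl {V : Type} (Λ ω : Finset V) : Set (V → Bool) := {c | ∀ v ∈ Λ, (c v = true ↔ v ∈ ω)}

open Classical in
theorem cyl_eq {V : Type} (Λ ω : Finset V) :
    cyl Λ ω = Set.pi (Λ : Set V) (fun v => ({decide (v ∈ ω)} : Set Bool)) := by
  ext c
  simp only [cyl, Set.mem_ofPred_eq, Set.mem_pi, Finset.mem_coe, Set.mem_singleton_iff]
  refine forall₂_congr fun v _ => ?_
  by_cases h : v ∈ ω
  · simp [h]
  · simp [h]

theorem measurableSet_cyl {V : Type} (Λ ω : Finset V) : MeasurableSet (cyl Λ ω) := by
  rw [cyl_eq]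
  exact MeasurableSet.pi Λ.countable_toSet (fun _ _ => measurableSet_singleton _)

theorem per_cyl {V : Type} (p : NNReal) (hp : p ≤ 1) (Λ ω : Finset V) (h : ω ⊆ Λ) :
    Per V p hp (cyl Λ ω) = ((p ^ ω.card * (1 - p) ^ (Λ.card - ω.card) : NNReal) : ENNReal) := by
  classical
  rw [cyl_eq, Per, Measure.infinitePi_pi _ (fun _ _ => measurableSet_singleton _)]
  simp_rw [bern_singleton]
  rw [← ENNReal.coe_finsetProd]
  congr 1
  simp only [decide_eq_true_eq]
  rw [Finset.prod_ite]
  simp only [Finset.prod_const]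
  have e1 : Λ.filter (fun v => v ∈ ω) = ω := by
    ext v
    simp only [Finset.mem_filter]
    exact ⟨fun h => h.2, fun hv => ⟨h hv, hv⟩⟩
  have e2 : Λ.filter (fun v => v ∉ ω) = Λ \ ω := by
    ext v
    simp [Finset.mem_sdiff]
  rw [e1, e2, Finset.card_sdiff_of_subset h]

theorem perfin : PerFinStmt := by
  classical
  intro V p hp Λ S hS
  have hdec : S = ⋃ ω ∈ Λ.powerset.filter (fun ω => colF ω ∈ S), cyl Λ ω := by
    ext c
    simp only [Set.mem_iUnion, exists_prop, Finset.mem_filter, Finset.mem_powerset]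
    have key : ∀ ω : Finset V, c ∈ cyl Λ ω → (c ∈ S ↔ colF ω ∈ S) := by
      intro ω h
      refine hS _ _ ?_
      intro v hv
      have h1 := h v hv
      unfold colF
      by_cases h2 : v ∈ ω
      · rw [h1.2 h2]; simp [h2]
      · have h3 : c v ≠ true := fun h => h2 (h1.1 h)
        simp only [h2, decide_false]
        simpa using h3
    constructor
    · intro hc
      refine ⟨Λ.filter (fun v => c v = true), ⟨Finset.filter_subset _ _, ?_⟩, ?_⟩
      · refine (key _ ?_).1 hc
        intro v hv
        simp [hv]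
      · intro v hv
        simp [hv]
    · rintro ⟨ω, ⟨_, h2⟩, h3⟩
      exact (key ω h3).2 h2
  have hdisj : (↑(Λ.powerset.filter (fun ω => colF ω ∈ S)) : Set (Finset V)).PairwiseDisjoint
      (fun ω => cyl Λ ω) := by
    intro ω h1 ω' h2 hne
    rw [Function.onFun, Set.disjoint_left]
    intro c hc hc'
    apply hne
    have s1 := (Finset.mem_filter.1 (Finset.mem_coe.1 h1)).1
    have s2 := (Finset.mem_filter.1 (Finset.mem_coe.1 h2)).1
    rw [Finset.mem_powerset] at s1 s2
    ext v
    constructor
    · intro hv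
      exact (hc' v (s1 hv)).1 ((hc v (s1 hv)).2 hv)
    · intro hv
      exact (hc v (s2 hv)).1 ((hc' v (s2 hv)).2 hv)
  have hmeas : MeasurableSet S := by
    rw [hdec]
    exact Finset.measurableSet_biUnion _ (fun ω _ => measurableSet_cyl Λ ω)
  refine ⟨hmeas, ?_⟩
  have hsum : Per V p hp S
      = ∑ ω ∈ Λ.powerset.filter (fun ω => colF ω ∈ S), Per V p hp (cyl Λ ω) := by
    conv_lhs => rw [hdec]
    exact measure_biUnion_finset hdisj (fun ω _ => measurableSet_cyl Λ ω)
  rw [measureReal_def, hsum, ENNReal.toReal_sum]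
  · refine Finset.sum_congr rfl ?_
    intro ω hω
    have h1 := Finset.mem_powerset.1 (Finset.mem_filter.1 hω).1
    rw [per_cyl p hp Λ ω h1, ENNReal.coe_toReal, NNReal.coe_mul, NNReal.coe_pow, NNReal.coe_pow,
      NNReal.coe_sub hp, NNReal.coe_one]
  · intro ω hω
    have h1 := Finset.mem_powerset.1 (Finset.mem_filter.1 hω).1
    rw [per_cyl p hp Λ ω h1]
    exact ENNReal.coe_ne_top

theorem persym : PerSymStmt := by
  intro V p hp hp2
  refine ⟨by fun_prop, ?_⟩
  have h := Measure.infinitePi_map_pi (fun _ : V => (PMF.bernoulli p hp).toMeasure)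
    (f := fun (_ : V) (b : Bool) => !b) (fun _ => measurable_of_finite _)
  rw [Per, h]
  congr 1
  funext v
  have e : (1 - p : NNReal) = p := by
    rw [hp2]
    apply NNReal.eq
    rw [NNReal.coe_sub (by rw [← hp2]; exact hp)]
    norm_num
  refine Measure.ext_of_singleton (fun b => ?_)
  rw [Measure.map_apply (measurable_of_finite _) (measurableSet_singleton _), bern_singleton]
  have e2 : (fun b : Bool => !b) ⁻¹' {b} = {!b} := by
    ext x
    cases x <;> cases b <;> simp
  rw [e2, bern_singleton]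
  cases b <;> simp [e]

end Pool.Agent.BS.H60
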