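import Pool.Agent.Helper60_BS.PerDecay

/-!
# BS module PERHALF (helper60)
-/

set_option autoImplicit false

namespace Pool.Agent.BS.H60

open Function Filter MeasureTheory Topology Pool.Agent.BS

section Count

variable {D V : Type}

theorem countable_D (T : TMap D V) : Countable D := by
  rcases isEmpty_or_nonempty D with h | ⟨⟨d⟩⟩
  · exact inferInstance
  · exact Function.Surjective.countable (f := fun g : Gam => T.act g d) (fun e => T.act_conn d e)

theorem countable_V (T : TMap D V) : Countable V := by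
  have := countable_D T
  refine Function.Surjective.countable (f := T.lf) ?_
  intro v
  obtain ⟨d, hd⟩ := T.star_ne v
  exact ⟨d, (T.mem_star v d).1 hd⟩

end Count

/-- loops of length `ℓ` through one of the first edges of a ray -/
def GG {D V : Type} (T : TMap D V) (K : ℕ) (e : ℕ → D) (ℓ : ℕ) : Set (V → Bool) :=
  {c | ∃ n, n + 1 ≤ K * ℓ ∧ ∃ H, T.IsLoop c (e n) ℓ H}

/-- the bound on the probability of `GG` -/
noncomputable def bb (K N : ℕ) (ε : ℝ) (ℓ : ℕ) : ℝ :=
  K * ((ℓ : ℝ) ^ 1 * Real.exp (-ε * ℓ)) + Real.exp (ε * N) * ((ℓ : ℝ) ^ 0 * Real.exp (-ε * ℓ))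

theorem bb_nonneg (K N : ℕ) (ε : ℝ) (ℓ : ℕ) : 0 ≤ bb K N ε ℓ := by
  unfold bb
  positivity

theorem bb_summable (K N : ℕ) {ε : ℝ} (hε : 0 < ε) : Summable (bb K N ε) := by
  unfold bb
  exact ((Real.summable_pow_mul_exp_neg_nat_mul 1 hε).mul_left _).add
    ((Real.summable_pow_mul_exp_neg_nat_mul 0 hε).mul_left _)

theorem measure_GG {D V : Type} (T : TMap D V) (K N : ℕ) (ε : ℝ) (hε : 0 < ε) (e : ℕ → D)
    (p : NNReal) (hp : p ≤ 1)
    (h : ∀ (s : D) (ℓ : ℕ), N ≤ ℓ →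
        MeasurableSet {c : V → Bool | ∃ H, T.IsLoop c s ℓ H} ∧
        (Per V p hp).real {c | ∃ H, T.IsLoop c s ℓ H} ≤ Real.exp (-(ε * ℓ))) (ℓ : ℕ) :
    Per V p hp (GG T K e ℓ) ≤ ENNReal.ofReal (bb K N ε ℓ) := by
  have : IsProbabilityMeasure (Per V p hp) := by unfold Per; infer_instance
  have h0 : 0 ≤ Real.exp (-ε * ℓ) := (Real.exp_pos _).le
  rcases lt_or_ge ℓ N with hl | hl
  · have h1 : (1 : ℝ) ≤ bb K N ε ℓ := by
      unfold bb
      have h2 : (1 : ℝ) ≤ Real.exp (ε * N) * Real.exp (-ε * ℓ) := by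
        rw [← Real.exp_add]
        apply Real.one_le_exp
        have : (ℓ : ℝ) ≤ N := by exact_mod_cast hl.le
        nlinarith
      have h3 : (0 : ℝ) ≤ K * ((ℓ : ℝ) ^ 1 * Real.exp (-ε * ℓ)) := by positivity
      rw [pow_zero, one_mul]
      linarith
    calc Per V p hp (GG T K e ℓ) ≤ 1 := prob_le_one
      _ = ENNReal.ofReal 1 := by simp
      _ ≤ _ := ENNReal.ofReal_le_ofReal h1
  · have hsub : GG T K e ℓ ⊆ ⋃ n ∈ Finset.range (K * ℓ), {c : V → Bool | ∃ H, T.IsLoop c (e n) ℓ H} := by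
      rintro c ⟨n, hn, hc⟩
      simp only [Set.mem_iUnion, exists_prop, Finset.mem_range]
      exact ⟨n, by omega, hc⟩
    have h1 : ∀ n, Per V p hp {c : V → Bool | ∃ H, T.IsLoop c (e n) ℓ H}
        ≤ ENNReal.ofReal (Real.exp (-(ε * ℓ))) := by
      intro n
      rw [← ofReal_measureReal]
      exact ENNReal.ofReal_le_ofReal (h (e n) ℓ hl).2
    calc Per V p hp (GG T K e ℓ)
        ≤ Per V p hp (⋃ n ∈ Finset.range (K * ℓ), {c : V → Bool | ∃ H, T.IsLoop c (e n) ℓ H}) :=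
          measure_mono hsub
      _ ≤ ∑ n ∈ Finset.range (K * ℓ), Per V p hp {c : V → Bool | ∃ H, T.IsLoop c (e n) ℓ H} :=
          measure_biUnion_finset_le _ _
      _ ≤ ∑ n ∈ Finset.range (K * ℓ), ENNReal.ofReal (Real.exp (-(ε * ℓ))) :=
          Finset.sum_le_sum (fun n _ => h1 n)
      _ = ENNReal.ofReal ((K * ℓ : ℕ) * Real.exp (-(ε * ℓ))) := by
          rw [Finset.sum_const, Finset.card_range, nsmul_eq_mul, ENNReal.ofReal_mul (by positivity),
            ENNReal.ofReal_natCast]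
      _ ≤ ENNReal.ofReal (bb K N ε ℓ) := by
          apply ENNReal.ofReal_le_ofReal
          unfold bb
          have h4 : (0 : ℝ) ≤ Real.exp (ε * N) * ((ℓ : ℝ) ^ 0 * Real.exp (-ε * ℓ)) := by positivity
          have h5 : ((K * ℓ : ℕ) : ℝ) * Real.exp (-(ε * ℓ))
              = K * ((ℓ : ℝ) ^ 1 * Real.exp (-ε * ℓ)) := by
            push_cast
            rw [pow_one, neg_mul]
            ring
          rw [h5]
          linarith

theorem perhalf (hD : PerDecayStmt) (hS : PerSymStmt) (hRay : RayStmt) (hRL : RayLoopStmt)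
    (hInf : InfStmt) : PerHalfStmt := by
  intro D V T Δ K θ hpl hdeg hfl hne p hp hp2
  have : IsProbabilityMeasure (Per V p hp) := by unfold Per; infer_instance
  by_contra hcon
  push Not at hcon
  have h0 : ∀ x : V, Per V p hp {c | (T.clu c x).Infinite} = 0 := fun x =>
    le_antisymm (hcon x) zero_le
  have hcount := countable_V T
  have hinf : Infinite V := hInf D V T K θ hfl hne
  have hae : ∀ᵐ c ∂(Per V p hp), ∀ x, (T.clu c x).Finite := by
    rw [ae_all_iff]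
    intro x
    rw [ae_iff]
    exact h0 x
  have hae2 : ∀ᵐ c ∂(Per V p hp), ∀ x, (T.clu (fun v => !(c v)) x).Finite :=
    (hS V p hp hp2).quasiMeasurePreserving.ae hae
  obtain ⟨e, -, he2, he3⟩ := hRay D V T hinf hne.some
  obtain ⟨-, hRL2⟩ := hRL D V T Δ K θ e hpl hdeg hfl he2 he3
  obtain ⟨ε, hε, N, p₀, hp0, hdec⟩ := hD D V T Δ K θ hpl hdeg hfl
  have hdec' := hdec p hp (by rw [hp2]; exact hp0.le) hp2.le
  have hsum : ∑' ℓ, Per V p hp (GG T K e ℓ) ≠ ⊤ := by
    refine ne_top_of_le_ne_top ?_ (ENNReal.tsum_le_tsum (fun ℓ =>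
      measure_GG T K N ε hε e p hp hdec' ℓ))
    exact (bb_summable K N hε).tsum_ofReal_ne_top
  have hBC := ae_eventually_notMem hsum
  obtain ⟨c, h1, h2, h3⟩ := (hae.and (hae2.and hBC)).exists
  obtain ⟨M, hM⟩ := eventually_atTop.1 h3
  obtain ⟨n, ℓ, H, hn1, hn2, hn3⟩ := hRL2 c h1 h2 (K * M)
  have hlt : M ≤ ℓ := by
    by_contra hlt
    push Not at hlt
    have : K * ℓ ≤ K * M := Nat.mul_le_mul_left K hlt.le
    omega
  exact hM ℓ hlt ⟨n, hn2, H, hn3⟩

end Pool.Agent.BS.H60
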